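import Pool.Agent.X300.TB.Eig
import Pool.Agent.Y144.MT.Cond
import Pool.Agent.Results.MP_af4e75_ag.TateClassesOfProducts

/-!
# The Tate conjecture for the products `A ^ n × B ^ q` of abelian varieties, `B` arbitrary

Let `k` be a field finitely generated over its prime field, of any characteristic, `Γ` its Galois
group, `ℓ` a prime different from the characteristic, and let `A` and `B` be abelian varieties
over `k`, where `B` is **arbitrary**. `V` and `W` are the rational Tate modules of `A` and `B` with
the actions `ρ` and `τ` of `Γ`, `χ` is the cyclotomic character, `ω` the Weil pairing of a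
polarization of `A` and `K` an algebraic closure of `ℚ_ℓ`. The cohomology `H^j(B ^ q, ℚ_ℓ)` is the
space of the alternating forms in `j` variables on `W ^ q`, with the action `coh τ q j`, and
`H^{2c}(A ^ n × B ^ q)(c)` is the sum over `a + j = 2 c` of the spaces of the alternating forms in `a`
variables on `V ^ n` with values in `H^j(B ^ q)`.

A subspace `U` of `K ⊗ V` is *strongly irreducible* if it is a minimal nonzero subspace which is stable
under a subgroup of finite index. If `End(A) = ℤ` over the algebraic closure then `K ⊗ V` is the only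
one.

Hypotheses on `A`:

* `hA`: the properties of the Weil pairing and the semisimplicity theorem of Faltings and Zarhin;
* `hplaces` (`HasPlaces`, `LocalConditions`): for every strongly irreducible subspace `U` of dimension at least two
  there is a place of bad or there are places of good reduction which satisfy one of the
  conditions `HasBadPlace` and `HasGoodPlaces` of the file `Pool/Agent/Y144/MT/Cond.lean` (for example, an
  element `γ` of an inertia group with `(γ - 1) ^ 2 = 0` such that the rank of `γ - 1` on `U`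
  and the multiplicities of the nonzero eigenvalues of the operators `(γ - 1) (g γ g⁻¹ - 1)` have no
  common prime factor, or `U` is symplectic and one of these numbers is two or odd). Moreover
  strongly irreducible lines are not self-dual, strongly irreducible subspaces which are not
  self-dual are not isomorphic to proper twists of each other, and there are no Weil families. These
  last three conditions are void if all `U` are symplectic (types I and II of the
  classification of Albert).

Under these hypotheses the Tate conjecture for all powers of `A` was known (it is in the starting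
library). Hypothesis on `A` and `B` (`IsSeparated`): there are *separating operators* on `K ⊗ V`, of one
of the two following kinds,

* `N = ρ(γ) - 1`, where `N ^ 2 = 0` and `τ(γ)` has finite order; for example `γ` is in the inertia
  group at a place prime to `ℓ` where `A` has semistable reduction and `B` has potentially good reduction;
* the operator which acts on the generalised eigenspace of `ρ(F)` for `a` as `w(a) - w(χ(F)) / 2`,
  where `F` is an element of `Γ` and `w` an additive function on the multiplicative group of `K` such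
  that `w(b) = w(χ(F)) / 2` for all eigenvalues `b` of `τ(F)`; for example `F` is a
  Frobenius element at a place of good reduction, where `B` has supersingular reduction, `w` is
  the `p`-adic valuation (extended to `K`) and the operator is the slope minus one half;

such that on every strongly irreducible subspace `U` of dimension at least two one of them is not
a scalar, and, for every family of strongly irreducible subspaces which are pairwise not isomorphic
and never dual to each other, no nontrivial linear combination of the traces vanishes on all of them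
(this second condition is void if all `U` are symplectic: `traces_of_symplectic`).

**Theorem.** For all `n` and `q` all Tate classes on `A ^ n × B ^ q`, of all codimensions and over all finite
extensions of `k`, are sums of exterior products of intersections of divisors on `A ^ n` and Tate
classes on `B ^ q`; and **the Tate conjecture holds for all `A ^ n × B ^ q` (in all codimensions, for all
`n`) if and only if it holds for `B ^ q`**. (`D n`, `CB d`, `C n m d` are the sets of the
classes of divisors on `A ^ n`, of cycles on `B ^ q`, and of the Künneth components of cycles on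
`A ^ n × B ^ q`, with rational coefficients.)

Example (not part of the formal statement). `End(A) = ℤ` over the algebraic closure, at one place
prime to `ℓ` the abelian variety `A` has semistable reduction of toric rank one or two, and `B` is any
abelian variety with potentially good reduction at this place, for instance any
abelian variety with complex multiplication, or any product of abelian varieties with good
reduction at this place. Then the Tate conjecture for `A ^ n × B ^ q` is equivalent to the one for `B ^ q`.
-/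

set_option autoImplicit false

namespace Pool.Agent.Results.MP_7b53ad_ag.BadPlacesTimesAnyAbelian

open Module TensorProduct Pool.Agent.Y126.AV
open Pool.Agent.X300.TB (coh)
open Pool.Agent.H204R3.SP Pool.Agent.H204R3.GP Pool.Agent.W522.U
open Pool.Agent.Y144.MT (HasBadPlace HasGoodPlaces)
open Pool.Agent.Y126.Notions (StronglyIrreducible AreDual IsSymplectic IsWeilFamily NoSelfDualLines
  NoProperTwists extend)
open Pool.Agent.Results.MP_af4e75_ag.TateClassesOfProducts (chi NonscalarOperators IndependentTraces
  IsCycleSystem EvenPart OddPart TateForProducts TateForZ)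

noncomputable section

section one

variable {K X Y Γ : Type} [Field K] [AddCommGroup X] [Module K X] [AddCommGroup Y] [Module K Y]
  [Group Γ] (R : Representation K Γ X) (χ : Γ →* K) (T : Representation K Γ Y)

/-- The conditions on the places of bad and of good reduction of `A`. -/
structure LocalConditions : Prop where
  places : ∀ U, StronglyIrreducible R U → 2 ≤ finrank K U → HasBadPlace R χ U ∨ HasGoodPlaces R χ U
  lines : NoSelfDualLines R χ
  twists : NoProperTwists R χ
  weil : ∀ (Q : Type) [Fintype Q] [Nonempty Q] (L : Q → Submodule K X), ¬IsWeilFamily R χ L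

/-- `x = R(γ) - 1`, where `x ^ 2 = 0` and `γ` acts with finite order on the Tate module of `B`. -/
def IsMonodromyOperator (x : Module.End K X) : Prop :=
  ∃ γ : Γ, x = R γ - 1 ∧ x * x = 0 ∧ ∃ r : ℕ, r ≠ 0 ∧ T γ ^ r = 1

/-- `x` acts on the generalised eigenspace of `R(F)` for `a` as `w(a) - w(c) / 2`, where `c = χ(F)`,
and `w(b) = w(c) / 2` for the eigenvalues `b` of `F` on the Tate module of `B`. -/
def IsSlopeOperator (x : Module.End K X) : Prop :=
  ∃ (F : Γ) (w : Additive Kˣ →+ K) (c : Kˣ), (c : K) = χ F ∧
    (∀ a : Kˣ, ∀ v ∈ Module.End.maxGenEigenspace (R F) (a : K),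
      x v = (w (Additive.ofMul a) - w (Additive.ofMul c) / 2) • v) ∧
      ∀ b : Kˣ, Module.End.HasEigenvalue (T F) (b : K) →
        2 * w (Additive.ofMul b) = w (Additive.ofMul c)

/-- The operators on `X = K ⊗ V` which separate `A` from `B`. -/
def separating : Set (Module.End K X) :=
  {x | IsMonodromyOperator R T x ∨ IsSlopeOperator R χ T x}

/-- On every strongly irreducible subspace of dimension at least two one of the separating operators is
not a scalar, and their traces on strongly irreducible subspaces which are pairwise not isomorphic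
and never dual to each other are linearly independent. -/
def Separates : Prop :=
  NonscalarOperators R (separating R χ T) ∧ IndependentTraces R χ (separating R χ T)

end one

section symplectic

variable {K X Γ : Type} [Field K] [CharZero K] [AddCommGroup X] [Module K X] [Group Γ]
  {R : Representation K Γ X} {χ : Γ →* K}

omit [CharZero K] in
theorem dual_of_symplectic {U : Submodule K X} (h : IsSymplectic R χ U) : AreDual R χ U U := by
  obtain ⟨Δ, hΔ, B, h0, -, h⟩ := h
  exact ⟨Δ, hΔ, B, h0, h⟩

/-- If all strongly irreducible subspaces are symplectic only the conditions on the places remain. -/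
theorem localConditions_of_symplectic [FiniteDimensional K X]
    (hs : ∀ U, StronglyIrreducible R U → IsSymplectic R χ U)
    (hp : ∀ U, StronglyIrreducible R U → HasBadPlace R χ U ∨ HasGoodPlaces R χ U) :
    LocalConditions R χ where
  places U hU _ := hp U hU
  lines U hU h1 _ := by
    have h2 := Pool.Agent.Y126.Toric.altDual_two_le (hs U hU)
    omega
  twists U U' hU _ _ hn := absurd (dual_of_symplectic (hs U hU)) hn
  weil Q _ hQ L hL := hL.2.1 hQ.some hQ.some (dual_of_symplectic (hs _ (hL.1 _)))

omit [CharZero K] in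
/-- If all strongly irreducible subspaces are symplectic the condition on the traces is void. -/
theorem traces_of_symplectic (hs : ∀ U, StronglyIrreducible R U → IsSymplectic R χ U)
    (S : Set (Module.End K X)) : IndependentTraces R χ S := by
  intro q U hU hnd _ c hc
  obtain ⟨i, -⟩ := Function.ne_iff.1 hc
  exact absurd (dual_of_symplectic (hs _ (hU i))) (hnd i i)

end symplectic

variable {ℓ : ℕ} [Fact ℓ.Prime] {V W Γ : Type} [AddCommGroup V] [Module ℚ_[ℓ] V]
  [AddCommGroup W] [Module ℚ_[ℓ] W] [Group Γ]

/-- `H^j(B ^ q)`. -/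
abbrev H (ℓ : ℕ) [Fact ℓ.Prime] (W : Type) [AddCommGroup W] [Module ℚ_[ℓ] W] (q j : ℕ) : Type :=
  (Fin q → W) [⋀^Fin j]→ₗ[ℚ_[ℓ]] ℚ_[ℓ]

/-- The separating operators for the Tate module of `B` are separating operators for `B ^ q`. -/
theorem separating_coh [FiniteDimensional ℚ_[ℓ] W] (ρ : Representation ℚ_[ℓ] Γ V)
    (χ : Γ →* ℚ_[ℓ]) (τ : Representation ℚ_[ℓ] Γ W) (q : ℕ)
    {x : Module.End (AlgebraicClosure ℚ_[ℓ]) (AlgebraicClosure ℚ_[ℓ] ⊗[ℚ_[ℓ]] V)}
    (hx : x ∈ separating (extend (AlgebraicClosure ℚ_[ℓ]) ρ) (chi (AlgebraicClosure ℚ_[ℓ]) χ)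
        (extend (AlgebraicClosure ℚ_[ℓ]) τ)) :
    x ∈ Pool.Agent.Results.MP_af4e75_ag.TateClassesOfProducts.separating
      (extend (AlgebraicClosure ℚ_[ℓ]) ρ) (chi (AlgebraicClosure ℚ_[ℓ]) χ) (coh τ q) := by
  rcases hx with ⟨γ, h1, h2, r, h3, h4⟩ | ⟨F, w, c, h1, h2, h3⟩
  · refine Or.inl ⟨γ, h1, h2, fun j => ⟨r, h3, Pool.Agent.X300.TB.finite_order τ q j γ ?_⟩⟩
    rw [← map_pow] at h4 ⊢
    have h5 : Function.Injective (fun v : W => (1 : AlgebraicClosure ℚ_[ℓ]) ⊗ₜ[ℚ_[ℓ]] v) :=
      Module.FaithfullyFlat.tensorProduct_mk_injective (A := ℚ_[ℓ])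
        (B := AlgebraicClosure ℚ_[ℓ]) W
    ext v
    exact h5 (LinearMap.congr_fun h4 ((1 : AlgebraicClosure ℚ_[ℓ]) ⊗ₜ[ℚ_[ℓ]] v))
  · exact Or.inr ⟨F, w, c, h1, h2, fun j s hs =>
      Pool.Agent.X300.TB.half_slope τ q j F w c h3 s hs⟩

/-- The abelian variety `A` satisfies the conditions on the places of bad and of good reduction. -/
def HasPlaces (ρ : Representation ℚ_[ℓ] Γ V) (χ : Γ →* ℚ_[ℓ]) : Prop :=
  LocalConditions (extend (AlgebraicClosure ℚ_[ℓ]) ρ) (chi (AlgebraicClosure ℚ_[ℓ]) χ)

/-- There are operators which separate `A` from `B`. -/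
def IsSeparated (ρ : Representation ℚ_[ℓ] Γ V) (χ : Γ →* ℚ_[ℓ]) (τ : Representation ℚ_[ℓ] Γ W) :
    Prop :=
  Separates (extend (AlgebraicClosure ℚ_[ℓ]) ρ) (chi (AlgebraicClosure ℚ_[ℓ]) χ)
    (extend (AlgebraicClosure ℚ_[ℓ]) τ)

/-- For all systems of classes of cycles, the Tate conjecture holds for `A ^ n × B ^ q`, for all `n` and in
all codimensions, if and only if it holds for `B ^ q`. -/
def TateEquivalence (ρ : Representation ℚ_[ℓ] Γ V) (χ : Γ →* ℚ_[ℓ])
    (τ : Representation ℚ_[ℓ] Γ W) (q : ℕ) : Prop :=
  ∀ (D : ∀ n : ℕ, Set ((Fin n → V) [⋀^Fin 2]→ₗ[ℚ_[ℓ]] ℚ_[ℓ]))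
    (CB : ∀ d : ℕ, Set (H ℓ W q (2 * d)))
    (C : ∀ n m d : ℕ, Set ((Fin n → V) [⋀^Fin m × Fin 2]→ₗ[ℚ_[ℓ]] H ℓ W q (2 * d))),
    IsCycleSystem (H := H ℓ W q) ρ χ D CB C →
      (TateForProducts ρ χ (coh τ q) C ↔ TateForZ χ (coh τ q) CB)

/-- **The Tate conjecture for `A ^ n × B ^ q`.** -/
theorem result [FiniteDimensional ℚ_[ℓ] V] [FiniteDimensional ℚ_[ℓ] W]
    (ρ : Representation ℚ_[ℓ] Γ V) (χ : Γ →* ℚ_[ℓ]) (ω : V →ₗ[ℚ_[ℓ]] V →ₗ[ℚ_[ℓ]] ℚ_[ℓ])
    (hA : IsTateModule ρ χ ω) (hplaces : HasPlaces ρ χ) (τ : Representation ℚ_[ℓ] Γ W)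
    (hsep : IsSeparated ρ χ τ) (q : ℕ) :
    EvenPart ρ χ (coh τ q) ∧ OddPart ρ χ (coh τ q) ∧ TateEquivalence ρ χ τ q := by
  obtain ⟨hN, hT⟩ := hsep
  have hl := left_nondeg ω hA.alternating hA.nondegenerate
  have hl1 : ∀ u, (∀ v, bcb (AlgebraicClosure ℚ_[ℓ]) ω u v = 0) → u = 0 :=
    fun u hu => bcb_nondeg_left ω hA.nondegenerate hl u hu
  have hinv := bcb_inv (Ω := AlgebraicClosure ℚ_[ℓ]) ρ χ ω hA.equivariant
  have hpr : HasProj (bcr ρ (AlgebraicClosure ℚ_[ℓ])) :=
    hasProj_bcr ρ _ hA.semisimple
  have h1 : ∀ U, StronglyIrreducible (extend (AlgebraicClosure ℚ_[ℓ]) ρ) U →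
      2 ≤ finrank (AlgebraicClosure ℚ_[ℓ]) U →
      ∃ e ∈ lieT (bcr ρ (AlgebraicClosure ℚ_[ℓ]))
        (bcc χ (AlgebraicClosure ℚ_[ℓ])), e * e = 0 ∧
        finrank (AlgebraicClosure ℚ_[ℓ]) (U.map e) = 1 := by
    intro U hU h2
    rcases hplaces.places U hU h2 with h | h
    · exact Pool.Agent.Y144.MT.one_of_bad _ hl1 hinv hpr hU h
    · exact Pool.Agent.Y144.MT.one_of_good _ hl1 hinv hpr hU h
  refine Pool.Agent.Results.MP_af4e75_ag.TateClassesOfProducts.result (AlgebraicClosure ℚ_[ℓ]) ρ χ ω
    hA (coh τ q) ?_ ?_ ?_ ?_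
  · rintro U hU ⟨Δ, hΔ, B, hB0, hB⟩
    rcases Nat.lt_or_ge (finrank (AlgebraicClosure ℚ_[ℓ]) U) 2 with h2 | h2
    · have h3 : finrank (AlgebraicClosure ℚ_[ℓ]) U ≠ 0 := fun h =>
        hU.1 (Submodule.finrank_eq_zero.1 h)
      exact absurd ⟨Δ, hΔ, B, hB0, hB⟩ (hplaces.lines U hU (by omega))
    · obtain ⟨e, he, -, hr⟩ := h1 U hU h2
      exact ⟨Δ, hΔ, B, hB0, Pool.Agent.TH118.CR.alt_of_nil hU hΔ B hB e
        (Pool.Agent.TH118.CR.lieT_stable _ hl1 hinv hpr hU.2.1 he)
        (Pool.Agent.TH118.CR.lieT_skew _ hl1 hinv hpr hU.2.1 hΔ B hB he) hr, hB⟩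
  · intro f hf
    have h2 := (Pool.Agent.Y126.Glue.conclusion ℓ ρ χ ω hA.alternating hA.nondegenerate
      hA.equivariant hA.semisimple h1 hplaces.lines hplaces.twists).2 hplaces.weil 4 2 f hf
    refine Submodule.span_mono ?_ h2
    rintro g ⟨B, hB, hg⟩
    refine ⟨B, fun l => ?_, hg⟩
    obtain ⟨Δ, hΔ, h3⟩ := hB l
    refine ⟨Δ, hΔ, fun s hs v => ?_⟩
    rw [pow_one]
    exact h3 s hs v
  · intro U hU h2
    obtain ⟨x, hx, hxc⟩ := hN U hU h2
    exact ⟨x, separating_coh ρ χ τ q hx, hxc⟩
  · intro r U h2 h3 h4 c hc
    obtain ⟨x, hx, hxc⟩ := hT r U h2 h3 h4 c hc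
    exact ⟨x, separating_coh ρ χ τ q hx, hxc⟩

end

end Pool.Agent.Results.MP_7b53ad_ag.BadPlacesTimesAnyAbelian
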