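import Pool.Agent.X296.Prod.FamilyTate
import Pool.Agent.TH117.BL.Main

/-!
# The Tate conjecture over finitely generated fields of characteristic `p` for the abelian varieties
whose geometric simple factors are members of a large family over a fixed finite field

The ground field with `q = p ^ a` elements is fixed, and so is no parameter that tends to infinity.
The theorem gives sets `S g` of Frobenius polynomials of absolutely simple ordinary abelian
varieties of dimension `g` over this field (`IsMember`, `IsLargeFamily`), that is, of isogeny classes:

* `S g` has at least `q ^ (g ^ 2 / 4 - C g log g)` members for `g ≥ g0`; the number of all isogeny
  classes of dimension `g` is `q ^ ((1 / 4 + o (1)) g ^ 2)` (DiPippo, Howe; Lipnowski, Tsimerman);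
* different members, of the same or of different dimensions, have CM fields that are not
  isomorphic (no roots of theirs generate the same field);
* each member is the Frobenius polynomial of a simple abelian variety in the sense of `RedAV`: the
  reduction of an abelian variety of CM type.

First statement: let `P i` be finitely many different members, of any dimensions, and let `A i` be
abelian varieties with these Frobenius polynomials. For all exponents `n i` and all supersingular
abelian varieties `B` all Tate classes of all degrees on `B × ∏ A i ^ (n i)`, over the ground field and
over all its finite extensions, belong to the algebra generated by the Tate classes of degree two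
(`TateGenerated`), and so they are algebraic, for all `ℓ ≠ p`.

Second statement: let `Y` be an abelian variety over a finite field of characteristic `p`, in the
sense of `RedAV` (up to isogeny over an algebraic closure each abelian variety over a finite field is
of this kind, by Honda and Tate), each of whose factors is supersingular or isogenous, over a finite
extension, to a power of a member (`OfMembers`). Then all Tate classes of `Y` over finite extensions
belong to `Alg Ω Y`, the span of classes obtained from classes of divisors (and split Weil classes of
degree four and six of the liftings, which are not needed here) by cup products, pull-backs and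
push-forwards. Here the endomorphism algebras and the ground field of `Y` are arbitrary.

Abelian varieties over finitely generated fields `k` of characteristic `p`: if `A` over `k` becomes
isogenous, over an algebraic closure of `k`, to such a `Y` (by Grothendieck this is a condition on the
simple factors of `A`, which must have sufficiently many complex multiplications), then an open
subgroup of the Galois group of `k` acts on the cohomology of `A` through powers of the Frobenius of
`Y`, and its image contains a power `Fr ^ s` with `s > 0`. So the Tate classes of `A` are those of `Y`,
that is the classes `f` in the second statement, and they are algebraic.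

The proof: the members are constructed with an auxiliary prime number `l` such that an inertia
element at `l` exchanges the two elements of one complex conjugate pair of roots of each member and
fixes all the other roots, for all members at the same time. As the fields of different members are
different, a Galois element separates these pairs, and it follows that all multiplicative relations
between the roots of any finite number of members come from the complex conjugate pairs
(`Pool.Agent.X296.Prod`).
-/

namespace Pool.Agent.Results.MP_7b53ad_ag.FixedFieldProducts

open Polynomial Pool.Agent.X296.Prod Pool.Agent.W518.TC Pool.Agent.W518.DN Pool.Agent.W495.TA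

/-- **The main theorem.** -/
theorem result (p : ℕ) [Fact p.Prime] (a : ℕ) (ha : 1 ≤ a) :
    ∃ (C : ℝ) (g0 : ℕ) (S : ℕ → Finset ℤ[X]), IsLargeFamily p a C g0 S ∧
      (∀ (κ : Type) [Fintype κ] (P : κ → ℤ[X]), Function.Injective P →
        (∀ i, ∃ g, P i ∈ S g) → TateGenerated p a P) ∧
      ∀ (ν : PadicAlgCl p ≃+* ℂ) (Ω : Type) [Field Ω] [CharZero Ω] [IsAlgClosed Ω]
        (Y : RedAV p ν), OfMembers a {P | ∃ g, P ∈ S g} Y →
        ∀ (s m : ℕ) (f : (TM Ω Y) [⋀^Fin (2 * m)]→ₗ[Ω] Ω), 0 < s → IsTateClass Ω Y s m f →
          Alg Ω Y (Fin (2 * m)) f := by
  obtain ⟨C, g0, S, h1, h2, h3⟩ := exists_largeFamily_tate p a ha
  exact ⟨C, g0, S, h1, h2, fun ν Ω _ _ _ Y hY s m f hs hf =>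
    TH117.BL.elementary Y (h3 ν Y hY) Ω Y (fun i => Or.inr ⟨i, RingHom.id _, 1, 1, one_pos,
      one_pos, rfl, rfl⟩) s m hs f hf⟩

end Pool.Agent.Results.MP_7b53ad_ag.FixedFieldProducts
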