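import Pool.Agent.X312.FM.LefChain

/-!
# Lefschetz classes, exotic algebraic classes and exotic Tate classes on `A × B ^ n`

Let `k` be a finitely generated field of **any** characteristic, `ℓ` a prime different from the
characteristic, and let `A` and `B` be **any** abelian varieties over `k`, all of whose
endomorphisms and homomorphisms over the algebraic closure are defined over `k` (true after a
finite extension of `k`). Let `Γ` be the Galois group of `k`. For a product `Z` of powers of `A`
and `B` consider the spaces of the **Lefschetz classes** (the `ℚ_ℓ`-algebra generated by the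
divisor classes), of the algebraic classes and of the `Γ`-invariant classes,

`Lef(Z) ⊂ Alg(Z) ⊂ Tate(Z) ⊂ ⊕_j H^(2 j)(Z, ℚ_ℓ(j))`.

Let `b = 2 ^ (2 dim B)` be the sum of the Betti numbers of `B`. For all `m, n ≥ 1`:

`dim Tate(A × B ^ n) ≥ dim Lef(A × B ^ n) + (c_m + d_m) (1 - 4 (m + 3) b ^ (m + 5) log (n + 1) /
n) dim Lef(B ^ n)`,

**where** `c_m = 1` **if there is an algebraic class on** `A × B ^ m` **which is not a Lefschetz
class, and** `c_m = 0` **otherwise, and** `d_m = 1` **if there is a Tate class on** `A × B ^ m`
**which is not algebraic, and** `d_m = 0` **otherwise**. So on abelian varieties of the form `A ×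
B ^ n` the Tate classes which are not Lefschetz classes are absent for all small `m` or very
numerous, and **the Tate conjecture is true for** `A × B ^ m` **if for one** `n` **the number of
the independent Tate classes on** `A × B ^ n` **is smaller than** `dim Lef(A × B ^ n)` **plus
twice** `(1 - ε_n) dim Lef(B ^ n)` **and there is an exotic algebraic class on** `A × B ^ m`. It
is not assumed that homological and numerical equivalence agree, and the dimensions of the spaces
of the Lefschetz classes are known.

By theorems of Milne the push-forwards of Lefschetz classes on abelian varieties are Lefschetz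
classes and the pairing on Lefschetz classes is nondegenerate; these are the hypotheses on the
class of varieties.

The proof. Identify the classes on `A × Z` with the homomorphisms `H(A) → H(Z)`. The families `Lef
⊂ Alg ⊂ Tate` of spaces of classes on `A × Z` are stable under the correspondences in `Lef` from
`Z` to `Z'`. If two of them, `N' ⊂ N`, differ for `A × P`, `P = B ^ m`, one takes an idempotent
Lefschetz correspondence `g` on `P` of minimal rank which does not vanish on `N(A × P) / N'(A ×
P)` and an element `z` of `g N(A × P)` which is not in `N'(A × P)`. A correspondence `x` such that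
`x z` is in `N'(A × P)` has a nilpotent compression `g x g`, so the trace of `g x` vanishes;
therefore `dim N(A × Z) / N'(A × Z)` is at least the rank of the trace form `(u, v) ↦ tr (g v u)`
on Lefschetz correspondences for all `Z`, and for `Z = B ^ n` this rank is compared with `dim
Lef(B ^ n)` by the log-convexity of the sequence of these dimensions and by the symmetric group.
-/

set_option autoImplicit false

open CategoryTheory AlgebraicGeometry

universe u v w

namespace Pool.Agent.Results.MP_7b53ad_ag.LefschetzChainLaw

open Pool.Agent.H914 VarClass Obj WeilCohomology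
open Pool.Agent.X312.FM (Has IsNondeg IndepMod dimOn gapBound lef alg oneIf Operators IsCompatible IsInvariant)
open Pool.Agent.Y133.Half (pw)

variable {k : Type u} [Field k] {𝒱 : VarClass k} {ops : CycleOps 𝒱}
  {W : WeilCohomology.{u, v} ops}

/-- The sum of the Betti numbers of `X`. -/
noncomputable def totalBetti (W : WeilCohomology.{u, v} ops) (X : 𝒱.Obj) : ℕ :=
  Module.finrank W.K (W.H X)

/-- **The chain law with Lefschetz classes.** In the intended use `𝒱` is the class of the products of
powers of two abelian varieties over `k`, `lef W` and `alg W` are the families of the Lefschetz classes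
and of the algebraic classes, and `ρ` is the action of the Galois group `G` of `k` on the spaces
`⊕_j H^(2 j)(Z, ℚ_ℓ(j))`. Here `dimOn (lef W) Z` is the dimension of the space of the Lefschetz
classes on `Z`, and `pw X m` is the product of `m + 1` copies of `X`. -/
theorem result (hpush : ∀ {Y Z : 𝒱.Obj} (f : Y ⟶ Z) (c : W.H Y), Has (lef W) c →
      Has (lef W) (Pool.Agent.X312.FK.pf W f c))
    {G : Type v} (ρ : Operators W G) (hρ : IsCompatible (lef W) ρ)
    (hcl : ∀ (Z : 𝒱.Obj) (j : ℕ) (z : Z.Cycles), Z.IsCyc j z → IsInvariant ρ (W.cl Z z))
    (X Y : 𝒱.Obj) (hX : ∀ n, IsNondeg (lef W) (pw X n)) (m n : ℕ) :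
    IndepMod (fun x : W.H (Y.prod (pw X n)) => IsInvariant ρ x) (lef W _)
      ((oneIf (∃ x : W.H (Y.prod (pw X m)), Has (alg W) x ∧ ¬ Has (lef W) x) +
        oneIf (∃ x : W.H (Y.prod (pw X m)), IsInvariant ρ x ∧ ¬ Has (alg W) x)) *
        gapBound (totalBetti W X) (dimOn (lef W) (pw X n)) m n) :=
  Pool.Agent.X312.FM.lef_chain hpush hρ hcl X Y hX m n

end Pool.Agent.Results.MP_7b53ad_ag.LefschetzChainLaw
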