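import Pool.Agent.X292.AV.Main

/-!
# Tate classes on products of powers of abelian varieties with places of bad reduction and of other
varieties

Let `k` be a field finitely generated over its prime field, of ANY characteristic different from
`ℓ`, `Γ` its Galois group, `K` an algebraic closure of `ℚ_ℓ` and `χ` the inverse of the cyclotomic
character. Let `A_i` (`i ∈ ι`, a finite set) be abelian varieties over `k` and `V_i = H^1(A_i)`, with
coefficients in `K`; a polarization over `k` gives an alternating form `ω_i` on `V_i` with
`ω_i(g x, g y) = χ(g) ω_i(x, y)`. Suppose that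

* `V_i` is irreducible under every open subgroup of `Γ` (by the theorems of Faltings and Zarhin this
  is the condition `End(A_i) = ℤ` over the algebraic closure of `k`);
* `A_i` and `A_j` are not isogenous, even up to twist, for `i ≠ j` (`notIso`);
* `A_i` has a place `v_i` of bad semistable reduction, of any toric rank, such that some element
  `γ_i` of the inertia group, `(γ_i - 1) ^ 2 = 0`, satisfies `ToricElement`: its defects (the rank of
  `γ_i - 1`, that is the toric rank, and the multiplicities of the nonzero eigenvalues of the
  operators `(γ_i - 1) (g γ_i g⁻¹ - 1)`, for instance) have no common prime factor; or one of them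
  is two. For example the toric rank is one or two; or it is any number `r` and there is
  another multiplicity prime to `r`.

Let `Z` be a smooth projective variety over `k` and `H = H^*(Z)`, with the action `τ` of `Γ`, such that
the algebra `H` is generated by classes on which an open subgroup acts by a power of `χ` (for
instance by algebraic classes) and by stable subspaces `U` each of which, for every `i`, is small in
one of the following senses (`SmallOn`; `r_i` is the rank of `γ_i - 1` on `V_i` and
`n_i = dim V_i = 2 dim A_i`):

* `(γ_i - 1) ^ 2 = 0` on `U`, and for the rank `s` of `γ_i - 1` on `U`: `2 s ^ 2 < r_i (r_i + 1)`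
  (for example `s = 0`, where `Z` has good reduction at `v_i`); or `s < r_i` and `U` carries
  an alternating form which is invariant up to a character (for example `U = H^1(B)` for an abelian
  variety `B` of toric rank smaller than that of `A_i` at `v_i`); or `s ≤ r_i` and `U`
  carries a symmetric form;
* `U` carries a symmetric form and `dim U ≤ n_i` (for example the transcendental part of `H^2` of a
  surface), or an alternating form and `dim U < n_i` (for example `U = H^1(B)`,
  `dim B < dim A_i`, whatever the reduction of `B` is).

Conclusion. By Künneth's formula and since the cohomology of an abelian variety is the exterior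
algebra of `H^1`, the Tate classes of codimension `q` on `∏ A_i ^ (n_i) × Z` are linear
combinations of images of Tate classes in the spaces `V_(c 1) ⊗ ... ⊗ V_(c a) ⊗ H^b(Z)` with
`a + b = 2 q`, and by the duality given by the forms `ω_i` such a class, invariant under the
open subgroup `Δ` up to `χ ^ q`, is a multilinear map `φ` with `g (φ(v)) = χ(g) ^ m φ(g v)`,
`m = q - a`. The theorem says: it is a linear combination of products
`∏ ω(v_(e(l,0)), v_(e(l,1))) • w` (products of classes of polarizations, that is of divisor
classes on the factors `A_i × A_i`), where `w` is a Tate class on `Z` with respect to the same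
group `Δ` (and in the span of the values of `φ`); if all Tate classes of `Z` in `G = H^(2j)(Z)`,
`j = b / 2`, are combinations of the algebraic classes `w ∈ C`, then `φ` is a combination of the
products with `w ∈ C`. So the Tate conjecture for `∏ A_i ^ (n_i) × Z`, for all `n_i`, in all
codimensions and over all finite extensions of `k`, is equivalent to the Tate conjecture
for `Z`; in particular (`Z` a point) it holds for `∏ A_i ^ (n_i)`.

Nothing is assumed about the action of `γ_i` on the other `V_j`: all `A_i` may have bad reduction at the
same place.
-/

set_option autoImplicit false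

namespace Pool.Agent.Results.MP_7b53ad_ag.ToricPlacesTowers

open Module Pool.Agent.X292.AV.S

/-- **Tate classes on products of powers of abelian varieties with bad reduction and other
varieties.** -/
theorem result {K : Type} [Field K] [CharZero K] [IsAlgClosed K] {Γ : Type} [Group Γ]
    (χ : Γ →* Kˣ)
    -- the abelian varieties
    {ι : Type} [Fintype ι] [DecidableEq ι] {V : ι → Type} [∀ i, AddCommGroup (V i)]
    [∀ i, Module K (V i)] [∀ i, FiniteDimensional K (V i)] (ρ : ∀ i, Representation K Γ (V i))
    (ω : ∀ i, V i →ₗ[K] V i →ₗ[K] K) (γ : ι → Γ) (hV : ToricFamily χ ρ ω γ)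
    -- the variety `Z`
    {H : Type} [Ring H] [Algebra K H] [FiniteDimensional K H] (τ : Γ →* (H ≃ₐ[K] H))
    (hZ : GeneratedBySmall χ τ ρ γ)
    -- the Tate class
    {R : Type} [Fintype R] [DecidableEq R] (c : R → ι) (Δ : Subgroup Γ) (hΔ : Δ.FiniteIndex)
    (m : ℤ) (φ : MultilinearMap K (fun r => V (c r)) H)
    (hφ : ∀ g ∈ Δ, ∀ v, τ g (φ v) = ((χ g ^ m : Kˣ) : K) • φ fun r => ρ (c r) g (v r)) :
    (fun v => φ v) ∈ Submodule.span K {f : (∀ r, V (c r)) → H |
      ∃ (l : ℕ) (e : Fin l × Fin 2 ≃ R) (w : H), w ∈ Submodule.span K (Set.range φ) ∧
        (∀ g ∈ Δ, τ g w = ((χ g ^ (m + l) : Kˣ) : K) • w) ∧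
        f = fun v => pairings ω c e v • w} ∧
    ∀ (G : Submodule K H) (C : Set H) (j : ℕ), 2 * (j : ℤ) = 2 * m + Fintype.card R →
      (∀ w ∈ G, (∀ g ∈ Δ, τ g w = (χ g : K) ^ j • w) → w ∈ Submodule.span K C) →
      (∀ v, φ v ∈ G) →
      (fun v => φ v) ∈ Submodule.span K {f : (∀ r, V (c r)) → H |
        ∃ (l : ℕ) (e : Fin l × Fin 2 ≃ R) (w : H), w ∈ C ∧
          f = fun v => pairings ω c e v • w} :=
  ⟨Pool.Agent.X292.AV.main hV hZ hΔ hφ, fun _ _ _ hj hC hG =>
    Pool.Agent.X292.AV.main_alg hV hZ hΔ hφ hj hC hG⟩

end Pool.Agent.Results.MP_7b53ad_ag.ToricPlacesTowers
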